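import Pool.Agent.Y381.UC.Defs

/-! # Project UC, parts PHE and PHU: phases on a cycle exist and are unique up to a unit -/

set_option autoImplicit false

open Finset Pool.Agent.TH996.Urn

namespace Pool.Agent.Y891.UC

open Pool.Agent.Y381.UC

variable {n s : ℕ}

theorem norm_om (n m : ℕ) : ‖om n m‖ = 1 := by
  unfold om
  exact Complex.norm_exp_ofReal_mul_I _

theorem norm_tau (χ : Fin (n + 4) → Fin s) (v : Fin (n + 4)) : ‖(tau χ v : ℂ)‖ = 1 := by
  unfold tau
  split_ifs <;> simp

theorem prod_tau (χ : Fin (n + 4) → Fin s) :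
    ∏ v, (tau χ v : ℂ) = (-1) ^ cuts χ := by
  classical
  unfold tau cuts
  rw [← Finset.prod_const, Finset.prod_filter]
  refine Finset.prod_congr rfl fun v _ => ?_
  by_cases h : χ v = χ (v + 1)
  · rw [if_pos h, if_neg (not_not.2 h)]
    simp
  · rw [if_neg h, if_pos h]
    simp

theorem om_pow (n m : ℕ) : (-1 : ℂ) ^ m * om n m ^ (n + 4) = 1 := by
  unfold om th
  split_ifs with h
  · rw [h.neg_one_pow]
    simp
  · rw [Nat.not_even_iff_odd] at h
    rw [h.neg_one_pow, ← Complex.exp_nat_mul]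
    have h1 : ((n + 4 : ℕ) : ℂ) * (((Real.pi / (n + 4) : ℝ) : ℂ) * Complex.I) =
        (Real.pi : ℂ) * Complex.I := by
      push_cast
      have h2 : ((n : ℂ) + 4) ≠ 0 := by exact_mod_cast (by omega : n + 4 ≠ 0)
      field_simp
    rw [h1, Complex.exp_pi_mul_I]
    ring

/-- the phase as a function of natural numbers -/
noncomputable def ph (χ : Fin (n + 4) → Fin s) : ℕ → ℂ
  | 0 => 1
  | i + 1 => (if h : i < n + 4 then (tau χ ⟨i, h⟩ : ℂ) else 1) * om n (cuts χ) * ph χ i

theorem norm_ph (χ : Fin (n + 4) → Fin s) (i : ℕ) : ‖ph χ i‖ = 1 := by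
  induction i with
  | zero => simp [ph]
  | succ i ih =>
    rw [ph, norm_mul, norm_mul, ih, norm_om]
    split_ifs with h
    · rw [norm_tau]
      norm_num
    · simp

theorem ph_eq (χ : Fin (n + 4) → Fin s) (i : ℕ) :
    ph χ i = (∏ j ∈ range i, if h : j < n + 4 then (tau χ ⟨j, h⟩ : ℂ) else 1) *
      om n (cuts χ) ^ i := by
  induction i with
  | zero => simp [ph]
  | succ i ih =>
    rw [ph, ih, Finset.prod_range_succ]
    ring

theorem ph_last (χ : Fin (n + 4) → Fin s) : ph χ (n + 4) = 1 := by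
  rw [ph_eq, ← Fin.prod_univ_eq_prod_range
    (fun j => if h : j < n + 4 then (tau χ ⟨j, h⟩ : ℂ) else 1) (n + 4)]
  have h1 : ∏ v : Fin (n + 4), (if h : (v : ℕ) < n + 4 then (tau χ ⟨v, h⟩ : ℂ) else 1) =
      ∏ v, (tau χ v : ℂ) := by
    refine Finset.prod_congr rfl fun v _ => ?_
    rw [dif_pos v.2]
  rw [h1, prod_tau, om_pow]

theorem t_PHE : S_PHE := by
  intro n s χ
  refine ⟨fun v => ph χ v.val, fun v => norm_ph χ _, fun v => ?_⟩
  have h1 : ph χ (v.val + 1) = (tau χ v : ℂ) * om n (cuts χ) * ph χ v.val := by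
    rw [ph, dif_pos v.2]
  show ph χ (v + 1).val = _
  rw [← h1]
  by_cases hv : v.val + 1 = n + 4
  · have h2 : v + 1 = 0 := by
      apply Fin.ext
      rw [Fin.val_add_one]
      rw [if_pos]
      · rfl
      · apply Fin.ext
        simp only [Fin.val_last]
        omega
    rw [h2, hv, ph_last]
    simp [ph]
  · have h2 : (v + 1).val = v.val + 1 := by
      rw [Fin.val_add_one, if_neg]
      intro h
      apply hv
      rw [h]
      simp
    rw [h2]

theorem t_PHU : S_PHU := by
  intro n s χ u u' hu hu'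
  have hne : ∀ v, u v ≠ 0 := fun v h => by
    have := hu.1 v
    rw [h, norm_zero] at this
    exact zero_ne_one this
  refine ⟨u' 0 / u 0, ?_, ?_⟩
  · rw [norm_div, hu.1, hu'.1, div_one]
  · have key : ∀ (i : ℕ) (hi : i < n + 4), u' ⟨i, hi⟩ = u' 0 / u 0 * u ⟨i, hi⟩ := by
      intro i
      induction i with
      | zero =>
        intro hi
        have h0 : (⟨0, hi⟩ : Fin (n + 4)) = 0 := rfl
        rw [h0, div_mul_cancel₀ _ (hne 0)]
      | succ i ih =>
        intro hi
        have hi' : i < n + 4 := by omega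
        have h1 : (⟨i + 1, hi⟩ : Fin (n + 4)) = ⟨i, hi'⟩ + 1 := by
          apply Fin.ext
          rw [Fin.val_add_one, if_neg]
          intro h
          have := congrArg Fin.val h
          simp at this
          omega
        rw [h1, hu.2, hu'.2, ih hi']
        ring
    exact fun v => key v.val v.2

end Pool.Agent.Y891.UC
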